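import Mathlib

/-!
# MP_d1f6bb_co : the conjectured values of `V(64), V(256), V(1024), V(2048)` are not optimal

`V X` is the least cost (connectivity minus one) of a perfectly balanced 4-way partition of the
`X × X` mesh with the five point stencil.  The conjecture states
`V 64 = 222, V 256 = 878, V 1024 = 3500, V 2048 = 6996`.
We prove `V 64 ≤ 221`, `V 256 ≤ 877`, `V 1024 ≤ 3499`, `V 2048 ≤ 6995`.

Two opposite corner parts are triangles whose outermost diagonal is trimmed at *both* ends; this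
costs nothing, and lets the two middle parts be balanced although the interface between them is a
single straight antidiagonal.
-/

namespace Pool.Agent.Results.MP_d1f6bb_co.MeshVolume

open Finset

/-- `u` lies in the net `N[v]`: `u = v` or `u, v` are neighbours in the mesh. -/
def Near {X : ℕ} (u v : Fin X × Fin X) : Prop :=
  |((u.1 : ℕ) : ℤ) - ((v.1 : ℕ) : ℤ)| + |((u.2 : ℕ) : ℤ) - ((v.2 : ℕ) : ℤ)| ≤ 1

instance {X : ℕ} (u v : Fin X × Fin X) : Decidable (Near u v) := by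
  unfold Near; infer_instance

/-- The number of parts meeting the net `N[v]`. -/
def lam {X : ℕ} (f : Fin X × Fin X → Fin 4) (v : Fin X × Fin X) : ℕ :=
  ((univ.filter (fun u => Near u v)).image f).card

/-- The cost of the partition with parts `f ⁻¹ {p}`. -/
def cost {X : ℕ} (f : Fin X × Fin X → Fin 4) : ℕ := ∑ v, (lam f v - 1)

/-- All four parts have exactly `X ^ 2 / 4` points. -/
def Balanced {X : ℕ} (f : Fin X × Fin X → Fin 4) : Prop :=
  ∀ p, 4 * (univ.filter (fun v => f v = p)).card = X ^ 2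

/-- `V X`: the minimum cost over all perfectly balanced 4-way partitions of the mesh. -/
noncomputable def V (X : ℕ) : ℕ :=
  sInf {c | ∃ f : Fin X × Fin X → Fin 4, Balanced f ∧ cost f = c}

/-! ### Cost as a sum of outer boundaries -/

/-- Outer vertex boundary of part `p`. -/
def bd {X : ℕ} (f : Fin X × Fin X → Fin 4) (p : Fin 4) : Finset (Fin X × Fin X) :=
  univ.filter (fun v => f v ≠ p ∧ ∃ u, Near u v ∧ f u = p)

lemma lam_sub_le {X : ℕ} (f : Fin X × Fin X → Fin 4) (v : Fin X × Fin X) :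
    lam f v - 1 ≤ ∑ p, if (f v ≠ p ∧ ∃ u, Near u v ∧ f u = p) then 1 else 0 := by
  rw [← card_filter]
  have h : (univ.filter (fun u => Near u v)).image f ⊆
      insert (f v) (univ.filter (fun p => f v ≠ p ∧ ∃ u, Near u v ∧ f u = p)) := by
    intro p hp
    simp only [mem_image, mem_filter, mem_univ, true_and] at hp
    obtain ⟨u, hu, hup⟩ := hp
    by_cases h : f v = p
    · simp [h]
    · simp only [mem_insert, mem_filter, mem_univ, true_and]
      right; exact ⟨h, u, hu, hup⟩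
  have h2 := card_le_card h
  have h3 := card_insert_le (f v) (univ.filter (fun p => f v ≠ p ∧ ∃ u, Near u v ∧ f u = p))
  unfold lam
  omega

lemma cost_le {X : ℕ} (f : Fin X × Fin X → Fin 4) : cost f ≤ ∑ p, (bd f p).card := by
  unfold cost bd
  calc ∑ v, (lam f v - 1)
      ≤ ∑ v, ∑ p, (if (f v ≠ p ∧ ∃ u, Near u v ∧ f u = p) then 1 else 0) :=
        sum_le_sum (fun v _ => lam_sub_le f v)
    _ = ∑ p, ∑ v, (if (f v ≠ p ∧ ∃ u, Near u v ∧ f u = p) then 1 else 0) := sum_comm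
    _ = _ := by
        refine sum_congr rfl (fun p _ => ?_)
        rw [← card_filter]

lemma near_nat {X : ℕ} {u v : Fin X × Fin X} (h : Near u v) :
    ((u.1 : ℕ) = v.1 ∧ ((u.2 : ℕ) = v.2 ∨ (u.2 : ℕ) = v.2 + 1 ∨ (v.2 : ℕ) = u.2 + 1)) ∨
    ((u.2 : ℕ) = v.2 ∧ ((u.1 : ℕ) = v.1 + 1 ∨ (v.1 : ℕ) = u.1 + 1)) := by
  unfold Near at h
  rcases abs_cases (((u.1 : ℕ) : ℤ) - ((v.1 : ℕ) : ℤ)) with ⟨h1, h1'⟩ | ⟨h1, h1'⟩ <;>
  rcases abs_cases (((u.2 : ℕ) : ℤ) - ((v.2 : ℕ) : ℤ)) with ⟨h2, h2'⟩ | ⟨h2, h2'⟩ <;>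
  rw [h1, h2] at h <;> omega

/-! ### The partition -/

/-- The top right triangle, with its outermost diagonal reduced to rows `a ≤ i < e`. -/
def T (X k a e i j : ℕ) : Prop := X + i < j + k ∨ (X + i = j + k ∧ a ≤ i ∧ i < e)

instance (X k a e i j : ℕ) : Decidable (T X k a e i j) := by unfold T; infer_instance

/-- The partition. -/
def part (X k a e i j : ℕ) : Fin 4 :=
  if T X k a e i j then 2 else if T X k a e j i then 1 else if i + j + 2 ≤ X then 0 else 3

/-- The partition on the mesh. -/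
def F (X k a e : ℕ) (v : Fin X × Fin X) : Fin 4 := part X k a e v.1 v.2

section

variable {X k a e c : ℕ}

lemma part2 (i j : ℕ) : part X k a e i j = 2 ↔ T X k a e i j := by
  unfold part; split_ifs with h1 h2 h3 <;> simp_all

lemma part1 (i j : ℕ) : part X k a e i j = 1 ↔ ¬ T X k a e i j ∧ T X k a e j i := by
  unfold part; split_ifs with h1 h2 h3 <;> simp_all

lemma part0 (i j : ℕ) : part X k a e i j = 0 ↔
    ¬ T X k a e i j ∧ ¬ T X k a e j i ∧ i + j + 2 ≤ X := by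
  unfold part; split_ifs with h1 h2 h3 <;> simp_all

lemma part3 (i j : ℕ) : part X k a e i j = 3 ↔
    ¬ T X k a e i j ∧ ¬ T X k a e j i ∧ ¬ (i + j + 2 ≤ X) := by
  unfold part; split_ifs with h1 h2 h3 <;> simp_all

lemma card_le_of_idx {α : Type*} (s : Finset α) (g : α → ℕ) (N : ℕ)
    (h1 : ∀ x ∈ s, g x < N) (h2 : ∀ x ∈ s, ∀ y ∈ s, g x = g y → x = y) : s.card ≤ N := by
  have := card_le_card_of_injOn (s := s) (t := range N) g
    (fun x hx => by simpa using h1 x hx) (fun x hx y hy h => h2 x hx y hy h)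
  simpa using this

lemma prod_ext {u v : Fin X × Fin X} (h1 : (u.1 : ℕ) = v.1) (h2 : (u.2 : ℕ) = v.2) : u = v :=
  Prod.ext (Fin.ext h1) (Fin.ext h2)

/-- Outer boundary of a trimmed triangle, in coordinates. -/
lemma mem_tri (hkX : k < X) (hek : e ≤ k) {i j i' j' : ℕ} (hi : i < X) (hj : j < X)
    (hi' : i' < X) (hj' : j' < X)
    (hn : (i' = i ∧ (j' = j ∨ j' = j + 1 ∨ j = j' + 1)) ∨ (j' = j ∧ (i' = i + 1 ∨ i = i' + 1)))
    (hu : T X k a e i' j') (hv : ¬ T X k a e i j) :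
    (j + k = i + X ∧ i < a) ∨ (j + k + 1 = i + X ∧ a ≤ i ∧ i ≤ e) ∨
      (j + k = i + X ∧ e ≤ i ∧ i < k) := by
  unfold T at hu hv
  omega

lemma tri_card (hkX : k < X) (hek : e ≤ k) (hae : a ≤ e) (s : Finset (Fin X × Fin X))
    (r q : Fin X × Fin X → ℕ)
    (hinj : ∀ u v : Fin X × Fin X, r u = r v → q u = q v → u = v)
    (hs : ∀ v ∈ s, (q v + k = r v + X ∧ r v < a) ∨ (q v + k + 1 = r v + X ∧ a ≤ r v ∧ r v ≤ e) ∨
      (q v + k = r v + X ∧ e ≤ r v ∧ r v < k)) : s.card ≤ k + 1 := by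
  refine card_le_of_idx s (fun v => if q v + k = r v + X ∧ e ≤ r v then r v + 1 else r v) _ ?_ ?_
  · intro v hv
    have := hs v hv
    split_ifs <;> omega
  · intro u hu v hv huv
    have h1 := hs u hu
    have h2 := hs v hv
    apply hinj
    · split_ifs at huv <;> omega
    · split_ifs at huv <;> omega

lemma bd2 (hkX : k < X) (hek : e ≤ k) (hae : a ≤ e) : (bd (F (X := X) k a e) 2).card ≤ k + 1 := by
  refine tri_card hkX hek hae _ (fun v => (v.1 : ℕ)) (fun v => (v.2 : ℕ))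
    (fun u v h1 h2 => prod_ext h1 h2) ?_
  intro v hv
  simp only [bd, mem_filter, mem_univ, true_and, F, part2, ne_eq] at hv
  obtain ⟨hv, u, hn, hu⟩ := hv
  exact mem_tri hkX hek v.1.2 v.2.2 u.1.2 u.2.2 (near_nat hn) hu hv

lemma bd1 (hkX : k < X) (hek : e ≤ k) (hae : a ≤ e) : (bd (F (X := X) k a e) 1).card ≤ k + 1 := by
  refine tri_card hkX hek hae _ (fun v => (v.2 : ℕ)) (fun v => (v.1 : ℕ))
    (fun u v h1 h2 => prod_ext h2 h1) ?_
  intro v hv
  simp only [bd, mem_filter, mem_univ, true_and, F, part1, ne_eq] at hv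
  obtain ⟨hv, u, hn, hu⟩ := hv
  have hv' : ¬ T X k a e v.2 v.1 := by
    intro h
    apply hv
    refine ⟨?_, h⟩
    unfold T at h ⊢
    omega
  refine mem_tri hkX hek v.2.2 v.1.2 u.2.2 u.1.2 ?_ hu.2 hv'
  have := near_nat hn
  omega

lemma mem0 (hkX : k < X) (hek : e ≤ k) (hac : a + 1 ≤ c) (hce : c ≤ e)
    (hc : 2 * c = k ∨ 2 * c = k + 1) {i j i' j' : ℕ} (hi : i < X) (hj : j < X)
    (hi' : i' < X) (hj' : j' < X)
    (hn : (i' = i ∧ (j' = j ∨ j' = j + 1 ∨ j = j' + 1)) ∨ (j' = j ∧ (i' = i + 1 ∨ i = i' + 1)))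
    (hu : ¬ T X k a e i' j' ∧ ¬ T X k a e j' i' ∧ i' + j' + 2 ≤ X)
    (hv : ¬ (¬ T X k a e i j ∧ ¬ T X k a e j i ∧ i + j + 2 ≤ X)) :
    (((j + k = i + X ∧ a ≤ i) ∨ (j + k = i + X + 1 ∧ i < a)) ∧ i < c) ∨
    (((i + k = j + X ∧ a ≤ j) ∨ (i + k = j + X + 1 ∧ j < a)) ∧ j < c) ∨
    (i + j + 1 = X ∧ c ≤ i ∧ c ≤ j) := by
  unfold T at hu hv
  omega

lemma mem3 (hkX : k < X) (hek : e ≤ k) (hac : a + 1 ≤ c) (hce : c ≤ e)
    (hc : 2 * c = k ∨ 2 * c = k + 1) {i j i' j' : ℕ} (hi : i < X) (hj : j < X)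
    (hi' : i' < X) (hj' : j' < X)
    (hn : (i' = i ∧ (j' = j ∨ j' = j + 1 ∨ j = j' + 1)) ∨ (j' = j ∧ (i' = i + 1 ∨ i = i' + 1)))
    (hu : ¬ T X k a e i' j' ∧ ¬ T X k a e j' i' ∧ ¬ (i' + j' + 2 ≤ X))
    (hv : ¬ (¬ T X k a e i j ∧ ¬ T X k a e j i ∧ ¬ (i + j + 2 ≤ X))) :
    ((j + k = i + X ∧ c ≤ i + 1 ∧ i < e) ∨ (j + k = i + X + 1 ∧ e ≤ i + 1 ∧ i + 1 < k)) ∨
    ((i + k = j + X ∧ c ≤ j + 1 ∧ j < e) ∨ (i + k = j + X + 1 ∧ e ≤ j + 1 ∧ j + 1 < k)) ∨
    (i + j + 2 = X ∧ k ≤ i + c ∧ k ≤ j + c) := by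
  unfold T at hu hv
  omega

lemma bd0 (hkX : k < X) (hek : e ≤ k) (hac : a + 1 ≤ c) (hce : c ≤ e)
    (hc : 2 * c = k ∨ 2 * c = k + 1) : (bd (F (X := X) k a e) 0).card ≤ X := by
  have key : ∀ v ∈ bd (F (X := X) k a e) 0,
      ((((v.2 : ℕ) + k = v.1 + X ∧ a ≤ (v.1 : ℕ)) ∨ ((v.2 : ℕ) + k = v.1 + X + 1 ∧ (v.1 : ℕ) < a))
        ∧ (v.1 : ℕ) < c) ∨
      ((((v.1 : ℕ) + k = v.2 + X ∧ a ≤ (v.2 : ℕ)) ∨ ((v.1 : ℕ) + k = v.2 + X + 1 ∧ (v.2 : ℕ) < a))
        ∧ (v.2 : ℕ) < c) ∨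
      ((v.1 : ℕ) + v.2 + 1 = X ∧ c ≤ (v.1 : ℕ) ∧ c ≤ (v.2 : ℕ)) := by
    intro v hv
    simp only [bd, mem_filter, mem_univ, true_and, F, part0, ne_eq] at hv
    obtain ⟨hv, u, hn, hu⟩ := hv
    exact mem0 hkX hek hac hce hc v.1.2 v.2.2 u.1.2 u.2.2 (near_nat hn) hu hv
  refine card_le_of_idx _ (fun v => if (v.1 : ℕ) + X ≤ v.2 + k then (v.1 : ℕ) else
    if (v.2 : ℕ) + X ≤ v.1 + k then X - 1 - v.2 else v.1) _ ?_ ?_
  · intro v hv
    have := v.1.2
    have := v.2.2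
    split_ifs <;> omega
  · intro u hu v hv huv
    have h1 := key u hu
    have h2 := key v hv
    have := u.1.2
    have := u.2.2
    have := v.1.2
    have := v.2.2
    apply prod_ext
    · split_ifs at huv <;> omega
    · split_ifs at huv <;> omega

lemma bd3 (hkX : k < X) (hek : e ≤ k) (hac : a + 1 ≤ c) (hce : c ≤ e)
    (hc : 2 * c = k ∨ 2 * c = k + 1) : (bd (F (X := X) k a e) 3).card ≤ X + 1 := by
  have key : ∀ v ∈ bd (F (X := X) k a e) 3,
      (((v.2 : ℕ) + k = v.1 + X ∧ c ≤ (v.1 : ℕ) + 1 ∧ (v.1 : ℕ) < e) ∨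
        ((v.2 : ℕ) + k = v.1 + X + 1 ∧ e ≤ (v.1 : ℕ) + 1 ∧ (v.1 : ℕ) + 1 < k)) ∨
      (((v.1 : ℕ) + k = v.2 + X ∧ c ≤ (v.2 : ℕ) + 1 ∧ (v.2 : ℕ) < e) ∨
        ((v.1 : ℕ) + k = v.2 + X + 1 ∧ e ≤ (v.2 : ℕ) + 1 ∧ (v.2 : ℕ) + 1 < k)) ∨
      ((v.1 : ℕ) + v.2 + 2 = X ∧ k ≤ (v.1 : ℕ) + c ∧ k ≤ (v.2 : ℕ) + c) := by
    intro v hv
    simp only [bd, mem_filter, mem_univ, true_and, F, part3, ne_eq] at hv
    obtain ⟨hv, u, hn, hu⟩ := hv
    exact mem3 hkX hek hac hce hc v.1.2 v.2.2 u.1.2 u.2.2 (near_nat hn) hu hv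
  refine card_le_of_idx _ (fun v =>
    if (v.1 : ℕ) + X ≤ v.2 + k then
      (if (v.1 : ℕ) + X = v.2 + k then v.1 + 1 - c else v.1 + 2 - c)
    else if (v.2 : ℕ) + X ≤ v.1 + k then
      (if (v.2 : ℕ) + X = v.1 + k then (k - c + 1) + (v.2 + 1 - c) else (k - c + 1) + (v.2 + 2 - c))
    else (k - c + 2) + v.1) _ ?_ ?_
  · intro v hv
    have h1 := key v hv
    have := v.1.2
    have := v.2.2
    split_ifs <;> omega
  · intro u hu v hv huv
    have h1 := key u hu
    have h2 := key v hv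
    have := u.1.2
    have := u.2.2
    have := v.1.2
    have := v.2.2
    apply prod_ext
    · split_ifs at huv <;> omega
    · split_ifs at huv <;> omega

lemma cost_F (hkX : k < X) (hek : e ≤ k) (hac : a + 1 ≤ c) (hce : c ≤ e)
    (hc : 2 * c = k ∨ 2 * c = k + 1) : cost (F (X := X) k a e) ≤ 2 * X + 2 * k + 3 := by
  have h := cost_le (F (X := X) k a e)
  rw [Fin.sum_univ_four] at h
  have h0 := bd0 hkX hek hac hce hc
  have h1 := bd1 (X := X) (k := k) (e := e) (a := a) hkX hek (by omega)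
  have h2 := bd2 (X := X) (k := k) (e := e) (a := a) hkX hek (by omega)
  have h3 := bd3 hkX hek hac hce hc
  omega

end

/-! ### Sizes of the parts -/

lemma card_rows (X : ℕ) (P : ℕ → ℕ → Prop) [∀ i j, Decidable (P i j)] :
    (univ.filter (fun v : Fin X × Fin X => P v.1 v.2)).card =
      ∑ i ∈ range X, ((range X).filter (fun j => P i j)).card := by
  rw [card_filter, Fintype.sum_prod_type,
    ← Fin.sum_univ_eq_sum_range (fun i => ((range X).filter (fun j => P i j)).card)]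
  refine sum_congr rfl (fun i _ => ?_)
  rw [card_filter, ← Fin.sum_univ_eq_sum_range (fun j => if P i j then 1 else 0)]

/-- First column of the triangle in row `i`. -/
def lo2 (X k a e i : ℕ) : ℕ :=
  if i < k then (if a ≤ i ∧ i < e then X + i - k else X + i + 1 - k) else X

/-- Number of points of part `1` in row `i`. -/
def lo0 (X k a e i : ℕ) : ℕ :=
  if X ≤ i + k then (if a ≤ i + k - X ∧ i + k - X < e then i + k - X + 1 else i + k - X) else 0

lemma row2 {X k a e i : ℕ} (hkX : k < X) (hek : e ≤ k) :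
    ((range X).filter (fun j => T X k a e i j)).card = X - lo2 X k a e i := by
  have : (range X).filter (fun j => T X k a e i j) = Ico (lo2 X k a e i) X := by
    ext j
    simp only [mem_filter, mem_range, mem_Ico]
    unfold T lo2
    split_ifs <;> omega
  rw [this, Nat.card_Ico]

lemma row0 {X k a e i : ℕ} (hkX : k < X) (hek : e ≤ k) (hi : i < X) :
    ((range X).filter (fun j => ¬ T X k a e i j ∧ ¬ T X k a e j i ∧ i + j + 2 ≤ X)).card =
      min (lo2 X k a e i) (X - 1 - i) - lo0 X k a e i := by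
  have : (range X).filter (fun j => ¬ T X k a e i j ∧ ¬ T X k a e j i ∧ i + j + 2 ≤ X) =
      Ico (lo0 X k a e i) (min (lo2 X k a e i) (X - 1 - i)) := by
    ext j
    simp only [mem_filter, mem_range, mem_Ico]
    unfold T lo2 lo0
    split_ifs <;> omega
  rw [this, Nat.card_Ico]

/-- Sum of `2 ^ d` consecutive values, by halving. -/
def tsum (f : ℕ → ℕ) : ℕ → ℕ → ℕ
  | 0, s => f s
  | d + 1, s => tsum f d s + tsum f d (s + 2 ^ d)

lemma tsum_eq (f : ℕ → ℕ) : ∀ d s, tsum f d s = ∑ i ∈ range (2 ^ d), f (s + i)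
  | 0, s => by simp [tsum]
  | d + 1, s => by
      rw [tsum, tsum_eq f d s, tsum_eq f d (s + 2 ^ d), pow_succ, mul_two, sum_range_add]
      congr 1
      refine sum_congr rfl (fun i _ => ?_)
      rw [add_assoc]

lemma sum_eq_tsum (f : ℕ → ℕ) (d : ℕ) : ∑ i ∈ range (2 ^ d), f i = tsum f d 0 := by
  rw [tsum_eq]; simp

lemma balanced_F {X k a e d : ℕ} (hX : X = 2 ^ d) (hkX : k < X) (hek : e ≤ k)
    (h2 : 4 * tsum (fun i => X - lo2 X k a e i) d 0 = X ^ 2)
    (h0 : 4 * tsum (fun i => min (lo2 X k a e i) (X - 1 - i) - lo0 X k a e i) d 0 = X ^ 2) :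
    Balanced (F (X := X) k a e) := by
  have c2 : 4 * (univ.filter (fun v => F (X := X) k a e v = 2)).card = X ^ 2 := by
    have : (univ.filter (fun v => F (X := X) k a e v = 2)) =
        univ.filter (fun v : Fin X × Fin X => T X k a e v.1 v.2) := by
      ext v; simp [F, part2]
    rw [this, card_rows X (fun i j => T X k a e i j), ← h2, ← sum_eq_tsum, ← hX]
    congr 1
    exact sum_congr rfl (fun i _ => row2 hkX hek)
  have c1 : 4 * (univ.filter (fun v => F (X := X) k a e v = 1)).card = X ^ 2 := by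
    rw [← c2]
    congr 1
    refine card_bij (fun v _ => (v.2, v.1)) ?_ ?_ ?_
    · intro v hv
      simp only [F, mem_filter, mem_univ, true_and, part1, part2] at hv ⊢
      exact hv.2
    · intro u _ v _ h
      simp only [Prod.mk.injEq] at h
      exact Prod.ext h.2 h.1
    · intro v hv
      refine ⟨(v.2, v.1), ?_, rfl⟩
      simp only [F, mem_filter, mem_univ, true_and, part1, part2] at hv ⊢
      refine ⟨?_, hv⟩
      unfold T at hv ⊢
      omega
  have c0 : 4 * (univ.filter (fun v => F (X := X) k a e v = 0)).card = X ^ 2 := by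
    have : (univ.filter (fun v => F (X := X) k a e v = 0)) =
        univ.filter (fun v : Fin X × Fin X =>
          ¬ T X k a e v.1 v.2 ∧ ¬ T X k a e v.2 v.1 ∧ (v.1 : ℕ) + v.2 + 2 ≤ X) := by
      ext v; simp only [F, mem_filter, mem_univ, true_and, part0]
    rw [this, card_rows X (fun i j => ¬ T X k a e i j ∧ ¬ T X k a e j i ∧ i + j + 2 ≤ X),
      ← h0, ← sum_eq_tsum, ← hX]
    congr 1
    exact sum_congr rfl (fun i hi => row0 hkX hek (mem_range.1 hi))
  have tot : ∑ p : Fin 4, (univ.filter (fun v => F (X := X) k a e v = p)).card = X ^ 2 := by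
    rw [← card_eq_sum_card_fiberwise (fun v _ => mem_univ (F (X := X) k a e v))]
    simp [pow_two]
  rw [Fin.sum_univ_four] at tot
  intro p
  fin_cases p
  · exact c0
  · exact c1
  · exact c2
  · change 4 * (univ.filter (fun v => F (X := X) k a e v = 3)).card = X ^ 2
    omega

lemma ex_le {X k a e c d : ℕ} (hX : X = 2 ^ d) (hkX : k < X) (hek : e ≤ k) (hac : a + 1 ≤ c)
    (hce : c ≤ e) (hc : 2 * c = k ∨ 2 * c = k + 1)
    (h2 : 4 * tsum (fun i => X - lo2 X k a e i) d 0 = X ^ 2)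
    (h0 : 4 * tsum (fun i => min (lo2 X k a e i) (X - 1 - i) - lo0 X k a e i) d 0 = X ^ 2) :
    ∃ f : Fin X × Fin X → Fin 4, Balanced f ∧ cost f ≤ 2 * X + 2 * k + 3 :=
  ⟨F (X := X) k a e, balanced_F hX hkX hek h2 h0, cost_F hkX hek hac hce hc⟩

lemma V_le {X n : ℕ} (h : ∃ f : Fin X × Fin X → Fin 4, Balanced f ∧ cost f ≤ n) : V X ≤ n := by
  obtain ⟨f, hf, hn⟩ := h
  exact le_trans (Nat.sInf_le ⟨f, hf, rfl⟩) hn

lemma ex64 : ∃ f : Fin 64 × Fin 64 → Fin 4, Balanced f ∧ cost f ≤ 221 :=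
  ex_le (k := 45) (a := 10) (e := 44) (c := 23) (d := 6) (by norm_num) (by norm_num)
    (by norm_num) (by norm_num) (by norm_num) (by norm_num) (by decide +kernel)
    (by decide +kernel)

lemma ex256 : ∃ f : Fin 256 × Fin 256 → Fin 4, Balanced f ∧ cost f ≤ 877 :=
  ex_le (k := 181) (a := 62) (e := 156) (c := 91) (d := 8) (by norm_num) (by norm_num)
    (by norm_num) (by norm_num) (by norm_num) (by norm_num) (by decide +kernel)
    (by decide +kernel)

lemma ex1024 : ∃ f : Fin 1024 × Fin 1024 → Fin 4, Balanced f ∧ cost f ≤ 3499 :=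
  ex_le (k := 724) (a := 228) (e := 646) (c := 362) (d := 10) (by norm_num) (by norm_num)
    (by norm_num) (by norm_num) (by norm_num) (by norm_num) (by decide +kernel)
    (by decide +kernel)

lemma ex2048 : ∃ f : Fin 2048 × Fin 2048 → Fin 4, Balanced f ∧ cost f ≤ 6995 :=
  ex_le (k := 1448) (a := 400) (e := 1348) (c := 724) (d := 11) (by norm_num)
    (by norm_num) (by norm_num) (by norm_num) (by norm_num) (by norm_num) (by decide +kernel)
    (by decide +kernel)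

/-- **The conjectured values of `V` at `64, 256, 1024, 2048` are all too large.**  (The four
existence clauses only make explicit that the infima defining `V` are attained by actual
balanced partitions.) -/
theorem result :
    (∃ f : Fin 64 × Fin 64 → Fin 4, Balanced f ∧ cost f ≤ 221) ∧
    (∃ f : Fin 256 × Fin 256 → Fin 4, Balanced f ∧ cost f ≤ 877) ∧
    (∃ f : Fin 1024 × Fin 1024 → Fin 4, Balanced f ∧ cost f ≤ 3499) ∧
    (∃ f : Fin 2048 × Fin 2048 → Fin 4, Balanced f ∧ cost f ≤ 6995) ∧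
    V 64 ≤ 221 ∧ V 256 ≤ 877 ∧ V 1024 ≤ 3499 ∧ V 2048 ≤ 6995 :=
  ⟨ex64, ex256, ex1024, ex2048, V_le ex64, V_le ex256, V_le ex1024, V_le ex2048⟩

end Pool.Agent.Results.MP_d1f6bb_co.MeshVolume
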